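import Pool.Agent.H97.SD.Targets

/-!
[EXI] Existence of `σ` (project SD on `MP_c62aed_lc`, board `szd_modules`).
-/

set_option autoImplicit false

open Finset

namespace Pool.Agent.H61.SD

open Pool.Agent.H97.SD

open Classical in
theorem pf_EXI (hCE1 : P_CE1) (hCE2 : P_CE2) (hNE1 : P_NE1) (hNE2 : P_NE2) : P_EXI := by
  intro A hA
  obtain ⟨k1, hk1⟩ := hNE1 A hA
  obtain ⟨k2, hk2⟩ := hNE2 A hA
  refine ⟨k1 + k2 + 4 * A, fun k N hk hkN => ?_⟩
  have hpN : 2 * A * N / k + 1 ≤ N := by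
    have hk0 : 0 < k := by omega
    have h1 : 2 * A * N / k ≤ N / 2 := by
      rw [Nat.le_div_iff_mul_le (by norm_num)]
      have h2 : 2 * A * N / k * k ≤ 2 * A * N := Nat.div_mul_le_self _ _
      have h3 : 4 * A ≤ k := by omega
      have h4 : 2 * A * N / k * (4 * A) ≤ 2 * A * N := (Nat.mul_le_mul_left _ h3).trans h2
      have h5 : (2 * A) * (2 * A * N / k * 2) ≤ (2 * A) * N := by
        calc (2 * A) * (2 * A * N / k * 2) = 2 * A * N / k * (4 * A) := by ring
          _ ≤ 2 * A * N := h4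
      exact Nat.le_of_mul_le_mul_left h5 (by omega)
    omega
  have hpM : 2 * A * N / k + 1 ≤ (k + 1) * N := hpN.trans (Nat.le_mul_of_pos_left _ (by omega))
  have hr : k / (4 * A * A) ≤ k := Nat.div_le_self _ _
  by_contra hno
  have hall : ∀ σ : Fin ((k + 1) * N) → Fin k → Fin N,
      ¬ E1 σ (2 * A * N / k + 1) (N / A) ∨ ¬ E2 σ (2 * A * N / k + 1) (k / (4 * A * A)) := by
    intro σ
    by_contra h
    rw [not_or, not_not, not_not] at h
    exact hno ⟨σ, h⟩
  have h1 := hCE1 N ((k + 1) * N) k (2 * A * N / k + 1) (N / A) hpM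
  have h2 := hCE2 N ((k + 1) * N) k (2 * A * N / k + 1) (k / (4 * A * A)) hpM hpN hr
  have h3 := hk1 k N (by omega) hkN
  have h4 := hk2 k N (by omega) hkN
  have h5 : (univ : Finset (Fin ((k + 1) * N) → Fin k → Fin N)) ⊆
      univ.filter (fun σ => ¬ E1 σ (2 * A * N / k + 1) (N / A)) ∪
        univ.filter (fun σ => ¬ E2 σ (2 * A * N / k + 1) (k / (4 * A * A))) := by
    intro σ _
    rw [Finset.mem_union, Finset.mem_filter, Finset.mem_filter]
    rcases hall σ with h | h
    · exact Or.inl ⟨Finset.mem_univ _, h⟩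
    · exact Or.inr ⟨Finset.mem_univ _, h⟩
  have h6 := (Finset.card_le_card h5).trans (Finset.card_union_le _ _)
  have h7 : (univ : Finset (Fin ((k + 1) * N) → Fin k → Fin N)).card =
      N ^ (k * ((k + 1) * N)) := by
    rw [Finset.card_univ, Fintype.card_fun, Fintype.card_fun, Fintype.card_fin, Fintype.card_fin,
      Fintype.card_fin, ← pow_mul]
  rw [h7] at h6
  omega

end Pool.Agent.H61.SD
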